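import Pool.Agent.Helper67.ETL.C1
import Pool.Agent.Helper46.ETL.C2

/-!
# ETL-C3: a Steinberg symbol of finite rank over the algebraic closure of a finite field:
the generic colours of lines agree modulo an isotropic subgroup
-/

set_option autoImplicit false

namespace Pool.Agent.Helper58.ETL

open Module Filter

variable {k F A W B : Type*} [Field k] [Field F] [Algebra k F] [AddCommGroup A]
  [AddCommGroup W] [AddCommGroup B]

namespace C3

/-- the elements `a` of `K` for which `x + a` has colour `v` -/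
def fib (k : Type*) {F W : Type*} [Field k] [Field F] [Algebra k F] (φ : F → W)
    (K : Subfield k) (x : F) (v : W) : Set k :=
  {a : k | a ∈ K ∧ φ (x + algebraMap k F a) = v}

omit [AddCommGroup W] in
lemma fib_finite (φ : F → W) (K : Subfield k) (hK : Finite K) (x : F) (v : W) :
    (fib k φ K x v).Finite :=
  (Set.toFinite (K : Set k)).subset (fun _ ha => ha.1)

omit [AddCommGroup W] in
lemma fib_ncard_le (φ : F → W) (K : Subfield k) (hK : Finite K) (x : F) (v : W) :
    (fib k φ K x v).ncard ≤ Nat.card K := by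
  have h : (fib k φ K x v).ncard ≤ (K : Set k).ncard :=
    Set.ncard_le_ncard (fun _ ha => ha.1) (Set.toFinite (K : Set k))
  exact h

lemma exhaust_large [Infinite k] {κ : ℕ → Subfield k} (hκ : Exhaust k κ) (n : ℕ) :
    ∃ J, ∀ j, J ≤ j → n ≤ Nat.card (κ j) := by
  obtain ⟨s, hs⟩ := Infinite.exists_subset_card_eq k n
  choose f hf using hκ.exh
  refine ⟨s.sup f, fun j hj => ?_⟩
  have hsub : (s : Set k) ⊆ (κ j : Set k) := by
    intro x hx
    exact hκ.mono ((Finset.le_sup hx).trans hj) (hf x)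
  have hfin : Finite (κ j) := hκ.fin j
  have h1 : (s : Set k).ncard ≤ (κ j : Set k).ncard :=
    Set.ncard_le_ncard hsub (Set.toFinite _)
  rw [Set.ncard_coe_finset, hs] at h1
  exact h1

lemma exhaust_mem {κ : ℕ → Subfield k} (hκ : Exhaust k κ) (a : k) :
    ∃ J, ∀ j, J ≤ j → a ∈ κ j := by
  obtain ⟨J, hJ⟩ := hκ.exh a
  exact ⟨J, fun j hj => hκ.mono hj hJ⟩

lemma ev_of_ge {P : ℕ → Prop} (h : ∃ J, ∀ j, J ≤ j → P j) : ∀ᶠ j in (hyperfilter ℕ : Filter ℕ), P j := by
  have h1 : ∀ᶠ j in (atTop : Filter ℕ), P j := eventually_atTop.2 h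
  rw [← Nat.cofinite_eq_atTop] at h1
  exact hyperfilter_le_cofinite h1

lemma pigeon [Finite W] (φ : F → W) (K : Subfield k) (hK : Finite K) (x : F) :
    ∃ v : W, Nat.card K ≤ (fib k φ K x v).ncard * Nat.card W := by
  classical
  have : Fintype W := Fintype.ofFinite W
  have : Fintype K := Fintype.ofFinite K
  by_contra hcon
  push Not at hcon
  have hsum : ∑ v : W, (fib k φ K x v).ncard = Nat.card K := by
    have h1 := Finset.card_eq_sum_card_fiberwise (s := (Finset.univ : Finset K))
      (t := (Finset.univ : Finset W)) (f := fun a : K => φ (x + algebraMap k F (a : k)))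
      (fun a _ => Finset.mem_univ _)
    rw [Nat.card_eq_fintype_card, ← Finset.card_univ, h1]
    refine Finset.sum_congr rfl fun v _ => ?_
    have h2 : fib k φ K x v = ((↑) : K → k) '' (Finset.univ.filter
      (fun a : K => φ (x + algebraMap k F (a : k)) = v) : Finset K) := by
      ext a
      simp only [fib, Set.mem_ofPred_eq, Set.mem_image, Finset.coe_filter, Finset.mem_univ,
        true_and, Subtype.exists, exists_and_left, exists_prop]
      constructor
      · rintro ⟨h1, h2⟩
        exact ⟨a, h2, h1, rfl⟩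
      · rintro ⟨b, h1, h2, rfl⟩
        exact ⟨h2, h1⟩
    rw [h2, Set.ncard_image_of_injective _ Subtype.val_injective, Set.ncard_coe_finset]
  have hlt : ∑ v : W, (fib k φ K x v).ncard * Nat.card W < ∑ v : W, Nat.card K :=
    Finset.sum_lt_sum_of_nonempty ⟨0, Finset.mem_univ _⟩ (fun v _ => hcon v)
  rw [← Finset.sum_mul, hsum, Finset.sum_const, Finset.card_univ, smul_eq_mul,
    ← Nat.card_eq_fintype_card, mul_comm] at hlt
  exact lt_irrefl _ hlt

/-- the popular colours -/
def DD (κ : ℕ → Subfield k) (φ : F → W) : Set W :=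
  {v | ∃ x : F, x ∉ Set.range (algebraMap k F) ∧ φ x = 0 ∧
    ∀ᶠ j in (hyperfilter ℕ : Filter ℕ),
      Nat.card (κ j) ≤ (fib k φ (κ j) x v).ncard * (2 * Nat.card W)}

lemma arith {q a b w : ℕ} (ha : q ≤ a * (2 * w)) (hb : q ≤ b * (2 * w))
    (ha' : a ≤ q) (hb' : b ≤ q) (hq : 32 * w ^ 4 < q) :
    q ^ 3 + (a * b) * q < (a * b) ^ 2 := by
  have h1 : q ^ 2 ≤ (a * b) * (4 * w ^ 2) := by
    calc q ^ 2 = q * q := by ring
      _ ≤ (a * (2 * w)) * (b * (2 * w)) := Nat.mul_le_mul ha hb
      _ = (a * b) * (4 * w ^ 2) := by ring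
  have h2 : q ^ 4 ≤ (a * b) ^ 2 * (16 * w ^ 4) := by
    calc q ^ 4 = (q ^ 2) ^ 2 := by ring
      _ ≤ ((a * b) * (4 * w ^ 2)) ^ 2 := Nat.pow_le_pow_left h1 2
      _ = (a * b) ^ 2 * (16 * w ^ 4) := by ring
  have h3 : (a * b) * q ≤ q ^ 3 := by
    calc (a * b) * q ≤ (q * q) * q := Nat.mul_le_mul_right _ (Nat.mul_le_mul ha' hb')
      _ = q ^ 3 := by ring
  have hq0 : 0 < q := lt_of_le_of_lt (Nat.zero_le _) hq
  have h4 : (2 * q ^ 3) * (16 * w ^ 4) < (a * b) ^ 2 * (16 * w ^ 4) := by
    calc (2 * q ^ 3) * (16 * w ^ 4) = (32 * w ^ 4) * q ^ 3 := by ring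
      _ < q * q ^ 3 := Nat.mul_lt_mul_of_pos_right hq (pow_pos hq0 3)
      _ = q ^ 4 := by ring
      _ ≤ _ := h2
  have h5 : 2 * q ^ 3 < (a * b) ^ 2 := lt_of_mul_lt_mul_right h4 (Nat.zero_le _)
  omega

lemma DD_orth [Infinite k] [Finite W] {κ : ℕ → Subfield k} (hκ : Exhaust k κ)
    {φ : F → W} {ω : W →+ W →+ B} (hs : IsSymbol k φ ω) {v v' : W}
    (hv : v ∈ DD κ φ) (hv' : v' ∈ DD κ φ) : ω v v' = 0 := by
  classical
  by_cases hv0 : v = 0
  · simp [hv0]
  by_cases hv0' : v' = 0
  · simp [hv0']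
  obtain ⟨x, hx, hφx, hxe⟩ := hv
  obtain ⟨y, hy, hφy, hye⟩ := hv'
  have hle := ev_of_ge (exhaust_large hκ (32 * Nat.card W ^ 4 + 1))
  obtain ⟨j, ⟨h1, h2⟩, h3⟩ := ((hxe.and hye).and hle).exists
  have hfin : Finite (κ j) := hκ.fin j
  have : Fintype (κ j) := Fintype.ofFinite _
  have hcard : ∀ (z : F) (u : W), (Finset.univ.filter
      (fun a : κ j => φ (z + algebraMap k F (a : k)) = u)).card = (fib k φ (κ j) z u).ncard := by
    intro z u
    have h2 : fib k φ (κ j) z u = ((↑) : κ j → k) '' (Finset.univ.filter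
      (fun a : κ j => φ (z + algebraMap k F (a : k)) = u) : Finset (κ j)) := by
      ext a
      simp only [fib, Set.mem_ofPred_eq, Set.mem_image, Finset.coe_filter, Finset.mem_univ,
        true_and, Subtype.exists, exists_and_left, exists_prop]
      constructor
      · rintro ⟨h1, h2⟩
        exact ⟨a, h2, h1, rfl⟩
      · rintro ⟨b, h1, h2, rfl⟩
        exact ⟨h2, h1⟩
    rw [h2, Set.ncard_image_of_injective _ Subtype.val_injective, Set.ncard_coe_finset]
  obtain ⟨a, ha, a', ha', b, hb, b', hb', hab⟩ := counting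
    (K := κ j) (Finset.univ.filter (fun a : κ j => φ (x + algebraMap k F (a : k)) = v))
    (Finset.univ.filter (fun a : κ j => φ (y + algebraMap k F (a : k)) = v'))
    (by
      simp only [Finset.mem_filter, Finset.mem_univ, true_and, ZeroMemClass.coe_zero, map_zero,
        add_zero, hφx]
      exact fun h => hv0 h.symm)
    (by
      simp only [Finset.mem_filter, Finset.mem_univ, true_and, ZeroMemClass.coe_zero, map_zero,
        add_zero, hφy]
      exact fun h => hv0' h.symm)
    (by
      rw [hcard, hcard, ← Nat.card_eq_fintype_card]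
      exact arith (w := Nat.card W) h1 h2 (fib_ncard_le _ _ hfin _ _)
        (fib_ncard_le _ _ hfin _ _) (by omega))
  simp only [Finset.mem_filter, Finset.mem_univ, true_and] at ha ha' hb hb'
  have hne : ∀ (z : F) (u : W) (c : κ j), u ≠ 0 → φ z = 0 →
      φ (z + algebraMap k F (c : k)) = u → (c : k) ≠ 0 := by
    intro z u c hu hz hc hc0
    rw [hc0, map_zero, add_zero, hz] at hc
    exact hu hc.symm
  refine graph_orth hs hx hy hφx hφy (hne _ _ _ hv0 hφx ha) (hne _ _ _ hv0 hφx ha')
    (hne _ _ _ hv0' hφy hb) (hne _ _ _ hv0' hφy hb') ?_ ha ha' hb hb'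
  have := congrArg (fun t : κ j => (t : k)) hab
  simpa using this

lemma closure_orth [Infinite k] [Finite W] {κ : ℕ → Subfield k} (hκ : Exhaust k κ)
    {φ : F → W} {ω : W →+ W →+ B} (hs : IsSymbol k φ ω) {m m' : W}
    (hm : m ∈ AddSubgroup.closure (DD κ φ)) (hm' : m' ∈ AddSubgroup.closure (DD κ φ)) :
    ω m m' = 0 := by
  induction hm using AddSubgroup.closure_induction with
  | mem v hv =>
    induction hm' using AddSubgroup.closure_induction with
    | mem v' hv' => exact DD_orth hκ hs hv hv'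
    | zero => simp
    | add a b _ _ ha hb => rw [map_add, ha, hb, add_zero]
    | neg a _ ha => rw [map_neg, ha, neg_zero]
  | zero => simp
  | add a b _ _ ha hb => rw [map_add, AddMonoidHom.add_apply, ha, hb, add_zero]
  | neg a _ ha => rw [map_neg, AddMonoidHom.neg_apply, ha, neg_zero]

lemma colour_div {f : F → A} (hf : IsColour k f) {x y : F} (hx : x ≠ 0) (hy : y ≠ 0) :
    f (x / y) = f x - f y := by
  have h := hf.map_mul (x / y) y (div_ne_zero hx hy) hy
  rw [div_mul_cancel₀ _ hy] at h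
  rw [h, add_sub_cancel_right]

lemma colour_smul {f : F → A} (hf : IsColour k f) {c : k} (hc : c ≠ 0) {x : F} (hx : x ≠ 0) :
    f (c • x) = f x := by
  rw [Algebra.smul_def, hf.map_mul _ _ (by simpa using hc) hx, hf.map_const c hc, zero_add]

/-- comparison of two bases of a line -/
lemma compare [Infinite k] [Finite W] {κ : ℕ → Subfield k} (hκ : Exhaust k κ)
    {φ : F → W} (hφ : IsColour k φ) {P Q P' Q' : F} {α β γ δ : k}
    (hP0 : P' ≠ 0) (hQ0 : Q' ≠ 0) (hind : ∀ c : k, Q' ≠ c • P')
    (hPn : P ≠ 0) (_hQn : Q ≠ 0) (hindPQ : ∀ c : k, Q ≠ c • P)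
    (hP : P = α • P' + β • Q') (hQ : Q = γ • P' + δ • Q')
    {p p' : W} (hpP : φ P = p) (_hpQ : φ Q = p) (hpP' : φ P' = p') (hpQ' : φ Q' = p') {v : W}
    (hv : ∀ᶠ j in (hyperfilter ℕ : Filter ℕ),
      Nat.card (κ j) ≤ (fib k φ (κ j) (Q / P) v).ncard * Nat.card W) :
    p + v - p' ∈ DD κ φ := by
  have hdet : α * δ - β * γ ≠ 0 := by
    intro h0
    by_cases hα : α = 0
    · by_cases hβ : β = 0
      · apply hPn; rw [hP, hα, hβ]; simp
      · have hγ : γ = 0 := by
          rw [hα, zero_mul, zero_sub, neg_eq_zero] at h0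
          exact (mul_eq_zero.1 h0).resolve_left hβ
        apply hindPQ (δ / β)
        rw [hP, hQ, hα, hγ, zero_smul, zero_add, zero_add, smul_smul,
          div_mul_cancel₀ _ hβ]
    · apply hindPQ (γ / α)
      rw [hP, hQ, smul_add, smul_smul, smul_smul, div_mul_cancel₀ _ hα]
      congr 2
      field_simp
      linear_combination h0
  refine ⟨Q' / P', ?_, ?_, ?_⟩
  · rintro ⟨c, hc⟩
    apply hind c
    rw [Algebra.smul_def, hc, div_mul_cancel₀ _ hP0]
  · rw [colour_div hφ hQ0 hP0, hpQ', hpP', sub_self]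
  · have hmem : ∀ c : k, ∀ᶠ j in (hyperfilter ℕ : Filter ℕ), c ∈ κ j :=
      fun c => ev_of_ge (exhaust_mem hκ c)
    filter_upwards [hv, hmem α, hmem β, hmem γ, hmem δ,
      ev_of_ge (exhaust_large hκ (2 * Nat.card W))] with j hj hα hβ hγ hδ hbig
    have hfin := hκ.fin j
    have hW : 0 < Nat.card W := Nat.card_pos
    -- the injection
    have hle : (fib k φ (κ j) (Q / P) v \ {-δ / β}).ncard ≤
        (fib k φ (κ j) (Q' / P') (p + v - p')).ncard := by
      have hden : ∀ a ∈ fib k φ (κ j) (Q / P) v \ {-δ / β}, δ + a * β ≠ 0 := by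
        rintro a ⟨_, ha⟩ h0
        by_cases hβ0 : β = 0
        · have hδ0 : δ = 0 := by simpa [hβ0] using h0
          apply hdet
          rw [hβ0, hδ0]; ring
        · apply ha
          rw [Set.mem_singleton_iff, eq_div_iff hβ0]
          linear_combination h0
      refine Set.ncard_le_ncard_of_injOn (fun a => (γ + a * α) / (δ + a * β)) ?_ ?_
        (fib_finite φ _ hfin _ _)
      · intro a ha
        have hd := hden a ha
        obtain ⟨⟨haK, hav⟩, _⟩ := ha
        refine ⟨div_mem (add_mem hγ (mul_mem haK hα)) (add_mem hδ (mul_mem haK hβ)), ?_⟩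
        have hx1 : Q / P + algebraMap k F a ≠ 0 := by
          intro h0
          apply hindPQ (-a)
          rw [Algebra.smul_def, map_neg]
          have : Q / P = - algebraMap k F a := eq_neg_of_add_eq_zero_left h0
          rw [← this, div_mul_cancel₀ _ hPn]
        have hx2 : Q' / P' + algebraMap k F ((γ + a * α) / (δ + a * β)) ≠ 0 := by
          intro h0
          apply hind (-((γ + a * α) / (δ + a * β)))
          rw [Algebra.smul_def, map_neg]
          have : Q' / P' = - algebraMap k F ((γ + a * α) / (δ + a * β)) :=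
            eq_neg_of_add_eq_zero_left h0
          rw [← this, div_mul_cancel₀ _ hP0]
        have hkey : (Q / P + algebraMap k F a) * P =
            algebraMap k F (δ + a * β) *
              ((Q' / P' + algebraMap k F ((γ + a * α) / (δ + a * β))) * P') := by
          have e1 : (Q / P + algebraMap k F a) * P = Q + algebraMap k F a * P := by
            rw [add_mul, div_mul_cancel₀ _ hPn]
          have e2 : (Q' / P' + algebraMap k F ((γ + a * α) / (δ + a * β))) * P' =
              Q' + algebraMap k F ((γ + a * α) / (δ + a * β)) * P' := by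
            rw [add_mul, div_mul_cancel₀ _ hP0]
          rw [e1, e2, mul_add, ← mul_assoc, ← map_mul, mul_div_cancel₀ _ hd, hP, hQ]
          simp only [Algebra.smul_def, map_add, map_mul]
          ring
        have hd' : algebraMap k F (δ + a * β) ≠ 0 := by
          rw [Ne, FaithfulSMul.algebraMap_eq_zero_iff]; exact hd
        have h1 := congrArg φ hkey
        rw [hφ.map_mul _ _ hx1 hPn, hφ.map_mul _ _ hd' (mul_ne_zero hx2 hP0),
          hφ.map_const _ hd, hφ.map_mul _ _ hx2 hP0, hav, hpP, hpP', zero_add] at h1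
        rw [eq_sub_iff_add_eq, ← h1, add_comm]
      · intro a ha b hb hab
        have hda := hden a ha
        have hdb := hden b hb
        simp only at hab
        rw [div_eq_div_iff hda hdb] at hab
        have : (a - b) * (α * δ - β * γ) = 0 := by linear_combination hab
        rcases mul_eq_zero.1 this with h | h
        · exact sub_eq_zero.1 h
        · exact absurd h hdet
    have hpred := Set.pred_ncard_le_ncard_sdiff_singleton (fib k φ (κ j) (Q / P) v) (-δ / β)
    set n := (fib k φ (κ j) (Q / P) v).ncard with hn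
    set m := (fib k φ (κ j) (Q' / P') (p + v - p')).ncard with hm
    have h1 : n ≤ m + 1 := by omega
    have h2 : n * Nat.card W ≤ (m + 1) * Nat.card W := Nat.mul_le_mul_right _ h1
    have h3 : m * (2 * Nat.card W) = 2 * (m * Nat.card W) := by ring
    have h4 : (m + 1) * Nat.card W = m * Nat.card W + Nat.card W := by ring
    rw [h3]
    omega

/-- `p` is the colour of two different points of `L` -/
def Mult (k : Type*) {F W : Type*} [Field k] [Field F] [Algebra k F] (φ : F → W)
    (L : Submodule k F) (p : W) : Prop :=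
  ∃ P Q : F, P ∈ L ∧ Q ∈ L ∧ P ≠ 0 ∧ Q ≠ 0 ∧ (∀ c : k, Q ≠ c • P) ∧ φ P = p ∧ φ Q = p

lemma span_pair_of_indep {L : Submodule k F} (hL : finrank k L = 2) {P Q : F} (hP : P ∈ L)
    (hQ : Q ∈ L) (hP0 : P ≠ 0) (hind : ∀ c : k, Q ≠ c • P) {z : F} (hz : z ∈ L) :
    ∃ a b : k, z = a • P + b • Q := by
  have hle : Submodule.span k {P, Q} ≤ L := by
    rw [Submodule.span_le]
    intro y hy
    rcases hy with rfl | hy
    · exact hP
    · rw [Set.mem_singleton_iff.1 hy]; exact hQ
  have hli : LinearIndependent k ![P, Q] := by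
    rw [LinearIndependent.pair_iff' hP0]
    intro a ha
    exact hind a ha.symm
  have hfr : finrank k (Submodule.span k {P, Q}) = 2 := by
    have h2 := finrank_span_eq_card hli
    rw [Fintype.card_fin] at h2
    have h3 : Set.range ![P, Q] = {P, Q} := by
      simp [Matrix.range_cons, Set.pair_comm]
    rw [h3] at h2
    exact h2
  have hfd : FiniteDimensional k L := FiniteDimensional.of_finrank_pos (by omega)
  have heq : Submodule.span k {P, Q} = L :=
    Submodule.eq_of_le_of_finrank_eq hle (by rw [hfr, hL])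
  rw [← heq] at hz
  obtain ⟨a, b, hab⟩ := Submodule.mem_span_pair.1 hz
  exact ⟨a, b, hab.symm⟩

lemma mult_sub [Infinite k] [Finite W] {κ : ℕ → Subfield k} (hκ : Exhaust k κ)
    {φ : F → W} (hφ : IsColour k φ) {L : Submodule k F} (hL : finrank k L = 2) {p p' : W}
    (hp : Mult k φ L p) (hp' : Mult k φ L p') :
    p - p' ∈ AddSubgroup.closure (DD κ φ) := by
  obtain ⟨P, Q, hPL, hQL, hP0, hQ0, hind, hP, hQ⟩ := hp
  obtain ⟨P', Q', hPL', hQL', hP0', hQ0', hind', hP', hQ'⟩ := hp'
  have hv : ∃ v : W, ∀ᶠ j in (hyperfilter ℕ : Filter ℕ),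
      Nat.card (κ j) ≤ (fib k φ (κ j) (Q / P) v).ncard * Nat.card W := by
    have h := Ultrafilter.eventually_exists_iff (f := hyperfilter ℕ) (P := fun (v : W) (j : ℕ) =>
      Nat.card (κ j) ≤ (fib k φ (κ j) (Q / P) v).ncard * Nat.card W)
    apply h.1
    exact Eventually.of_forall (fun j => pigeon φ (κ j) (hκ.fin j) (Q / P))
  obtain ⟨v, hv⟩ := hv
  obtain ⟨α, β, hαβ⟩ := span_pair_of_indep hL hPL' hQL' hP0' hind' hPL
  obtain ⟨γ, δ, hγδ⟩ := span_pair_of_indep hL hPL' hQL' hP0' hind' hQL
  have h1 : p + v - p' ∈ DD κ φ := compare hκ hφ hP0' hQ0' hind' hP0 hQ0 hind hαβ hγδ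
    hP hQ hP' hQ' hv
  have h2 : p + v - p ∈ DD κ φ := compare hκ hφ hP0 hQ0 hind hP0 hQ0 hind
    (α := 1) (β := 0) (γ := 0) (δ := 1) (by simp) (by simp) hP hQ hP hQ hv
  rw [add_sub_cancel_left] at h2
  have h3 := sub_mem (AddSubgroup.subset_closure h1) (AddSubgroup.subset_closure h2)
  have h4 : p + v - p' - v = p - p' := by abel
  rwa [h4] at h3

end C3

open C3 in
/-- ETL-C3 (isotropy; uses C1, C2). -/
theorem exists_isotropic [Infinite k] [Finite W] {κ : ℕ → Subfield k} (hκ : Exhaust k κ)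
    {φ : F → W} {ω : W →+ W →+ B} (hs : IsSymbol k φ ω) :
    ∃ M : AddSubgroup W, (∀ m ∈ M, ∀ m' ∈ M, ω m m' = 0) ∧
      IsColour k (fun x => (QuotientAddGroup.mk (φ x) : W ⧸ M)) ∧
      LineConst k (fun x => (QuotientAddGroup.mk (φ x) : W ⧸ M)) (Nat.card W) := by
  classical
  have hφ : IsColour k φ := hs.toIsColour
  refine ⟨AddSubgroup.closure (DD κ φ), fun m hm m' hm' => closure_orth hκ hs hm hm', ?_, ?_⟩
  · constructor
    · intro x y hx hy
      simp only [hφ.map_mul x y hx hy, QuotientAddGroup.mk_add]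
    · intro c hc
      simp only [hφ.map_const c hc, QuotientAddGroup.mk_zero]
  · intro L hL
    -- the class of a multiple colour
    obtain ⟨α, hα⟩ : ∃ α : W ⧸ AddSubgroup.closure (DD κ φ), ∀ p : W, Mult k φ L p →
        (QuotientAddGroup.mk p : W ⧸ AddSubgroup.closure (DD κ φ)) = α := by
      by_cases h : ∃ p0, Mult k φ L p0
      · obtain ⟨p0, hp0⟩ := h
        refine ⟨QuotientAddGroup.mk p0, fun p hp => ?_⟩
        rw [QuotientAddGroup.eq]
        have := mult_sub hκ hφ hL hp0 hp
        rwa [neg_add_eq_sub]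
      · exact ⟨0, fun p hp => absurd ⟨p, hp⟩ h⟩
    refine ⟨α, ?_⟩
    set S := {H : Submodule k F | H ≤ L ∧ finrank k H = 1 ∧ ∃ z ∈ H, z ≠ 0 ∧
      (QuotientAddGroup.mk (φ z) : W ⧸ AddSubgroup.closure (DD κ φ)) ≠ α} with hS
    have hch : ∀ H : Submodule k F, ∃ z : F, H ∈ S → z ∈ H ∧ z ≠ 0 ∧
      (QuotientAddGroup.mk (φ z) : W ⧸ AddSubgroup.closure (DD κ φ)) ≠ α := by
      intro H
      by_cases h : H ∈ S
      · obtain ⟨_, _, z, hz⟩ := h
        exact ⟨z, fun _ => hz⟩
      · exact ⟨0, fun h' => absurd h' h⟩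
    choose z hz using hch
    have hinj : Set.InjOn (fun H => φ (z H)) S := by
      intro H hH H' hH' heq
      by_contra hne
      obtain ⟨hzH, hz0, hzα⟩ := hz H hH
      obtain ⟨hzH', hz0', hzα'⟩ := hz H' hH'
      apply hzα
      apply hα
      refine ⟨z H, z H', hH.1 hzH, hH'.1 hzH', hz0, hz0', ?_, rfl, heq.symm⟩
      intro c hc
      apply hne
      have hspan : ∀ (G : Submodule k F) (w : F), finrank k G = 1 → w ∈ G → w ≠ 0 →
          Submodule.span k {w} = G := by
        intro G w hG hw hw0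
        have hfd : FiniteDimensional k G := FiniteDimensional.of_finrank_pos (by omega)
        apply Submodule.eq_of_le_of_finrank_eq
        · rw [Submodule.span_singleton_le_iff_mem]; exact hw
        · rw [finrank_span_singleton hw0, hG]
      rw [← hspan H (z H) hH.2.1 hzH hz0, ← hspan H' (z H') hH'.2.1 hzH' hz0']
      have hc0 : c ≠ 0 := by
        rintro rfl
        exact hz0' (by rw [hc, zero_smul])
      rw [hc, Submodule.span_singleton_smul_eq (IsUnit.mk0 c hc0)]
    calc S.encard ≤ (Set.univ : Set W).encard :=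
        Set.encard_le_encard_of_injOn (fun H _ => Set.mem_univ _) hinj
      _ = (Nat.card W : ℕ∞) := by
        rw [Set.encard_univ, ENat.card_eq_coe_natCard]

end Pool.Agent.Helper58.ETL
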